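import Pool.Agent.helper8.FT.A5a
import Pool.Agent.helper33.FT.A5b

set_option autoImplicit false

/-!
# Existence of bounded data for every class of order dividing five (module A5c)
-/

namespace Pool.Agent.helper3.FT

open NumberField Pool.Agent.helper47.RA

variable {K : Type} [Field K] [NumberField K]

/-- A5c (from A5a, A5b) -/
theorem exists_full (Q : QF K) (T : ℕ) (hT : 16 ^ 4 * |Q.D| ≤ (T : ℤ) ^ 4)
    (C : ClassGroup (𝓞 K)) (hC : C ^ 5 = 1) : ∃ F : Full Q, F.Bdd T ∧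
      ∃ h : F.a ∈ nonZeroDivisors (Ideal (𝓞 K)), ClassGroup.mk0 ⟨F.a, h⟩ = C := by
  obtain ⟨a, L, β, γ, hβ, hγ, iβ, iγ, pa, pL, hcl, na, nL, b1, b2, c1, c2, d1, d2, d3, d4⟩ :=
    exists_choice Q C hC
  obtain ⟨F, rfl, rfl, rfl, rfl⟩ := exists_full_of Q a L β γ hβ hγ iβ iγ pa pL
  refine ⟨F, ?_, hcl⟩
  -- the size parameter
  have hD0 : (0 : ℝ) < |(Q.D : ℝ)| := by
    rw [abs_pos]
    exact_mod_cast Q.D_ne_zero
  set s : ℝ := |(Q.D : ℝ)| with hs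
  obtain ⟨t, ht, ht4⟩ : ∃ t : ℝ, 0 < t ∧ t ^ 4 = s :=
    ⟨s ^ (1 / 4 : ℝ), Real.rpow_pos_of_pos hD0 _, by
      rw [← Real.rpow_natCast, ← Real.rpow_mul hD0.le]; norm_num⟩
  have hsq : √s = t ^ 2 := by
    rw [← ht4, show t ^ 4 = (t ^ 2) ^ 2 by ring, Real.sqrt_sq (by positivity)]
  have h12 : s ^ (1 / 2 : ℝ) = t ^ 2 := by rw [← Real.sqrt_eq_rpow, hsq]
  have h34 : s ^ (3 / 4 : ℝ) = t ^ 3 := by
    rw [← ht4, ← Real.rpow_natCast, ← Real.rpow_mul ht.le, ← Real.rpow_natCast]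
    norm_num
  have hTt : 16 * t ≤ T := by
    have h1 : (16 ^ 4 * |(Q.D : ℝ)|) ≤ (T : ℝ) ^ 4 := by exact_mod_cast hT
    rw [← hs, ← ht4] at h1
    have h2 : (16 * t) ^ 4 ≤ (T : ℝ) ^ 4 := by
      calc (16 * t) ^ 4 = 16 ^ 4 * t ^ 4 := by ring
        _ ≤ _ := h1
    exact le_of_pow_le_pow_left₀ (by norm_num) (Nat.cast_nonneg _) h2
  have hT2 : 256 * t ^ 2 ≤ (T : ℝ) ^ 2 := by
    calc 256 * t ^ 2 = (16 * t) ^ 2 := by ring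
      _ ≤ _ := pow_le_pow_left₀ (by positivity) hTt 2
  have hT3 : 4096 * t ^ 3 ≤ (T : ℝ) ^ 3 := by
    calc 4096 * t ^ 3 = (16 * t) ^ 3 := by ring
      _ ≤ _ := pow_le_pow_left₀ (by positivity) hTt 3
  rw [h12] at na nL
  rw [h34] at b1 b2 c1 c2
  have ht2 : 0 < t ^ 2 := by positivity
  have ht3 : 0 < t ^ 3 := by positivity
  -- the absolute values of `Z` and `Λ`
  have nZ : (Ideal.absNorm F.a : ℝ) = |(F.Z : ℝ)| := by
    have := F.na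
    exact_mod_cast this
  have nΛ : (Ideal.absNorm F.L : ℝ) = |(F.Λ : ℝ)| := by
    have := F.nL
    exact_mod_cast this
  have hZ0 : 0 < |(F.Z : ℝ)| := by
    rw [abs_pos]
    exact_mod_cast F.hZ
  have hΛ0 : 0 < |(F.Λ : ℝ)| := by
    rw [abs_pos]
    exact_mod_cast F.hΛ
  rw [nZ] at na d3 d4
  rw [nΛ] at nL d1 d2
  -- generic bound for `Y`
  have hY : ∀ (x : 𝓞 K) (R : ℝ), Q.v₁ x + Q.v₂ x ≤ R * t ^ 2 → |(Q.Y x : ℝ)| ≤ R := by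
    intro x R hR
    have h1 := Q.Y_bound x
    rw [← hs, hsq] at h1
    exact le_of_mul_le_mul_right (h1.trans hR) ht2
  have u1 : Q.v₁ F.u ≤ 16 * s := by
    have h1 : |(F.Λ : ℝ)| * Q.v₁ F.u = Q.v₁ F.β * Q.v₂ F.γ := by
      rw [← Q.v₁_int, ← Q.v₁_mul, ← F.e1, Q.v₁_mul, Q.v₁_cj]
    rw [← h1] at d1
    nlinarith
  have u2 : Q.v₂ F.u ≤ 16 * s := by
    have h1 : |(F.Λ : ℝ)| * Q.v₂ F.u = Q.v₂ F.β * Q.v₁ F.γ := by
      rw [← Q.v₂_int, ← Q.v₂_mul, ← F.e1, Q.v₂_mul, Q.v₂_cj]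
    rw [← h1] at d2
    nlinarith
  have v1 : Q.v₁ F.v ≤ 16 * s := by
    have h1 : |(F.Z : ℝ)| * Q.v₁ F.v = Q.v₁ F.β * Q.v₁ F.γ := by
      rw [← Q.v₁_int, ← Q.v₁_mul, ← F.e2, Q.v₁_mul]
    rw [← h1] at d3
    nlinarith
  have v2 : Q.v₂ F.v ≤ 16 * s := by
    have h1 : |(F.Z : ℝ)| * Q.v₂ F.v = Q.v₂ F.β * Q.v₂ F.γ := by
      rw [← Q.v₂_int, ← Q.v₂_mul, ← F.e2, Q.v₂_mul]
    rw [← h1] at d4
    nlinarith
  have kβ : |(Q.Y F.β : ℝ)| ≤ T := (hY F.β (16 * t) (by nlinarith)).trans hTt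
  have kγ : |(Q.Y F.γ : ℝ)| ≤ T := (hY F.γ (16 * t) (by nlinarith)).trans hTt
  have ku : |(Q.Y F.u : ℝ)| ≤ (T : ℝ) ^ 2 := by
    refine (hY F.u (32 * t ^ 2) ?_).trans (by nlinarith)
    calc Q.v₁ F.u + Q.v₂ F.u ≤ 32 * s := by linarith
      _ = 32 * t ^ 2 * t ^ 2 := by rw [← ht4]; ring
  have kv : |(Q.Y F.v : ℝ)| ≤ (T : ℝ) ^ 2 := by
    refine (hY F.v (32 * t ^ 2) ?_).trans (by nlinarith)
    calc Q.v₁ F.v + Q.v₂ F.v ≤ 32 * s := by linarith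
      _ = 32 * t ^ 2 * t ^ 2 := by rw [← ht4]; ring
  have kZ : |(F.Z : ℝ)| ≤ (T : ℝ) ^ 2 := by nlinarith
  have kΛ : |(F.Λ : ℝ)| ≤ (T : ℝ) ^ 2 := by nlinarith
  exact
    { bn := by exact_mod_cast kβ
      bk := by exact_mod_cast kγ
      bm := by exact_mod_cast ku
      bg := by exact_mod_cast kv
      bZ := by exact_mod_cast kZ
      bΛ := by exact_mod_cast kΛ
      bβ := by linarith
      bγ := by linarith }

end Pool.Agent.helper3.FT
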