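import Pool.Agent.helper52.FT.A6defs

set_option autoImplicit false

namespace Pool.Agent.helper3.FT

open Finset NumberField Pool.Agent.helper47.RA

/-- a fundamental discriminant is nonzero -/
theorem fund_ne_zero {D : ℤ} (hD : IsFund D) : D ≠ 0 := by
  rcases hD with ⟨h, _, _⟩ | ⟨m, rfl, hm, _⟩
  · rintro rfl
    norm_num at h
  · intro h
    have : m = 0 := by omega
    subst this
    norm_num at hm

/-- four times a fundamental discriminant is not one -/
theorem fund_four {D D' : ℤ} (hD' : IsFund D') (h : D = 4 * D')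
    (h1 : ∃ m, D = 4 * m ∧ (m % 4 = 2 ∨ m % 4 = 3)) : False := by
  obtain ⟨m, hm, hm4⟩ := h1
  have : m = D' := by omega
  subst this
  rcases hD' with ⟨h, _, _⟩ | ⟨m', rfl, hm', _⟩
  · omega
  · omega

/-- A7a -/
theorem fund_unique (D D' x y : ℤ) (hD : IsFund D) (hD' : IsFund D') (hx : x ≠ 0) (hy : y ≠ 0)
    (h : D * x ^ 2 = D' * y ^ 2) : D = D' := by
  obtain ⟨g, x', y', hg, hco, rfl, rfl⟩ := Int.exists_gcd_one' (m := x) (n := y)
    (Nat.pos_of_ne_zero (by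
      intro h0
      rw [Int.gcd_eq_zero_iff] at h0
      exact hx h0.1))
  have hg0 : (g : ℤ) ≠ 0 := by exact_mod_cast hg.ne'
  have h1 : D * x' ^ 2 = D' * y' ^ 2 := by
    have h2 : ((g : ℤ) ^ 2) * (D * x' ^ 2) = ((g : ℤ) ^ 2) * (D' * y' ^ 2) := by
      linear_combination h
    exact mul_left_cancel₀ (pow_ne_zero 2 hg0) h2
  have hcop : IsCoprime x' y' := Int.isCoprime_iff_gcd_eq_one.2 hco
  have hc2 : IsCoprime (x' ^ 2) (y' ^ 2) := hcop.pow
  have d1 : x' ^ 2 ∣ D' := hc2.dvd_of_dvd_mul_right (Dvd.intro_left _ h1)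
  have d2 : y' ^ 2 ∣ D := hc2.symm.dvd_of_dvd_mul_right (Dvd.intro_left _ h1.symm)
  rcases hD'.sq_dvd d1 with u1 | ⟨m', hm', hm4', hx2⟩
  · have hx1 : x' ^ 2 = 1 := by
      rcases Int.isUnit_iff.1 u1 with rfl | rfl <;> norm_num
    rcases hD.sq_dvd d2 with u2 | ⟨m, hm, hm4, hy2⟩
    · have hy1 : y' ^ 2 = 1 := by
        rcases Int.isUnit_iff.1 u2 with rfl | rfl <;> norm_num
      rw [hx1, hy1] at h1
      linarith
    · exfalso
      have hy1 : y' ^ 2 = 4 := by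
        rcases hy2 with rfl | rfl <;> norm_num
      rw [hx1, hy1] at h1
      exact fund_four hD' (by linarith) ⟨m, hm, hm4⟩
  · rcases hD.sq_dvd d2 with u2 | ⟨m, hm, hm4, hy2⟩
    · exfalso
      have hx1 : x' ^ 2 = 4 := by
        rcases hx2 with rfl | rfl <;> norm_num
      have hy1 : y' ^ 2 = 1 := by
        rcases Int.isUnit_iff.1 u2 with rfl | rfl <;> norm_num
      rw [hx1, hy1] at h1
      exact fund_four hD (by linarith) ⟨m', hm', hm4'⟩
    · exfalso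
      have hx1 : (2 : ℤ) ∣ x' := by rcases hx2 with rfl | rfl <;> norm_num
      have hy1 : (2 : ℤ) ∣ y' := by rcases hy2 with rfl | rfl <;> norm_num
      have := hcop.isUnit_of_dvd' hx1 hy1
      rw [Int.isUnit_iff] at this
      omega

/-- the cardinality of a finite disjoint union -/
theorem ncard_sum_eq {α : Type} (s : Finset ℤ) (A : ℤ → Set α)
    (hfin : ∀ D ∈ s, (A D).Finite) (hdis : ∀ D ∈ s, ∀ D' ∈ s, ∀ a, a ∈ A D → a ∈ A D' → D = D') :
    ∑ D ∈ s, (A D).ncard = (⋃ D ∈ s, A D).ncard := by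
  classical
  induction s using Finset.induction_on with
  | empty => simp
  | insert D s hD ih =>
    rw [Finset.sum_insert hD, ih (fun D' h => hfin D' (Finset.mem_insert_of_mem h))
      (fun D1 h1 D2 h2 => hdis D1 (Finset.mem_insert_of_mem h1) D2 (Finset.mem_insert_of_mem h2)),
      Finset.set_biUnion_insert]
    refine (Set.ncard_union_eq ?_ (hfin D (Finset.mem_insert_self _ _))
      (Set.Finite.biUnion s.finite_toSet
        (fun D' h => hfin D' (Finset.mem_insert_of_mem h)))).symm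
    rw [Set.disjoint_left]
    intro a ha hb
    rw [Set.mem_iUnion₂] at hb
    obtain ⟨D', hD', hb⟩ := hb
    have := hdis D (Finset.mem_insert_self _ _) D' (Finset.mem_insert_of_mem hD') a ha hb
    rw [this] at hD
    exact hD hD'

/-- A7b (from A7a) -/
theorem sum_SD (T : ℕ) (hf : (SS T).Finite) (s : Finset ℤ) (hs : ∀ D ∈ s, IsFund D) :
    (∀ D ∈ s, (SD D T).Finite) ∧ ∑ D ∈ s, (SD D T).ncard ≤ (SS T).ncard := by
  have hfin : ∀ D ∈ s, (SD D T).Finite := fun D _ => hf.subset (fun t ht => ht.1)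
  refine ⟨hfin, ?_⟩
  rw [ncard_sum_eq s (fun D => SD D T) hfin]
  · refine Set.ncard_le_ncard ?_ hf
    intro t ht
    rw [Set.mem_iUnion₂] at ht
    obtain ⟨D, _, h⟩ := ht
    exact h.1
  · intro D hD D' hD' t ht ht'
    obtain ⟨hS, d, hd, h1⟩ := ht
    obtain ⟨-, d', hd', h2⟩ := ht'
    have hn : t.1 ≠ 0 := hS.1
    have hk : t.2.1 ≠ 0 := hS.2.1
    exact fund_unique D D' _ _ (hs D hD) (hs D' hD') (mul_ne_zero (mul_ne_zero hd hn) hk)
      (mul_ne_zero (mul_ne_zero hd' hn) hk) (h1.trans h2.symm)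

/-- A7c (from A7a) -/
theorem sum_ZD (T : ℕ) (hf : (ZZ T).Finite) (s : Finset ℤ) (hs : ∀ D ∈ s, IsFund D) :
    (∀ D ∈ s, (ZD D T).Finite) ∧ ∑ D ∈ s, (ZD D T).ncard ≤ 2 * (ZZ T).ncard := by
  set U : Set (ℤ × ℤ × ℤ × ℤ) := ⋃ D ∈ s, ZD D T with hU
  set φ : ℤ × ℤ × ℤ × ℤ → (ℤ × ℤ × ℤ) × Bool :=
    fun t => ((t.1, t.2.1, t.2.2.1), decide (0 < t.2.2.2)) with hφ
  have hmaps : Set.MapsTo φ U (ZZ T ×ˢ (Set.univ : Set Bool)) := by
    intro t ht
    rw [hU, Set.mem_iUnion₂] at ht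
    obtain ⟨D, _, h⟩ := ht
    exact ⟨h.1, Set.mem_univ _⟩
  have hinj : Set.InjOn φ U := by
    rintro ⟨m, g, e, k⟩ ht ⟨m', g', e', k'⟩ ht' heq
    rw [hU, Set.mem_iUnion₂] at ht ht'
    obtain ⟨D, hD, -, hk, h1⟩ := ht
    obtain ⟨D', hD', -, hk', h2⟩ := ht'
    simp only [hφ, Prod.mk.injEq, decide_eq_decide] at heq
    obtain ⟨⟨rfl, rfl, rfl⟩, hkk⟩ := heq
    simp only at hk hk' h1 h2
    have hDD : D = D' := fund_unique D D' k k' (hs D hD) (hs D' hD') hk hk' (h1.trans h2.symm)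
    subst hDD
    have h3 : D * k ^ 2 = D * k' ^ 2 := h1.trans h2.symm
    have h4 : k ^ 2 = k' ^ 2 := mul_left_cancel₀ (fund_ne_zero (hs D hD)) h3
    have h5 : k = k' := by
      rcases sq_eq_sq_iff_eq_or_eq_neg.1 h4 with h5 | h5
      · exact h5
      · omega
    rw [h5]
  have hfin2 : (ZZ T ×ˢ (Set.univ : Set Bool)).Finite := hf.prod Set.finite_univ
  have hUfin : U.Finite := Set.Finite.of_injOn hmaps hinj hfin2
  have hsub : ∀ D ∈ s, ZD D T ⊆ U := fun D hD => Set.subset_biUnion_of_mem (u := fun D => ZD D T) hD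
  have hfin : ∀ D ∈ s, (ZD D T).Finite := fun D hD => hUfin.subset (hsub D hD)
  refine ⟨hfin, ?_⟩
  rw [ncard_sum_eq s (fun D => ZD D T) hfin]
  · calc U.ncard ≤ (ZZ T ×ˢ (Set.univ : Set Bool)).ncard :=
          Set.ncard_le_ncard_of_injOn φ hmaps hinj hfin2
      _ = (ZZ T).ncard * (Set.univ : Set Bool).ncard := Set.ncard_prod
      _ = 2 * (ZZ T).ncard := by
          rw [Set.ncard_univ, Nat.card_eq_fintype_card, Fintype.card_bool, mul_comm]
  · rintro D hD D' hD' ⟨m, g, e, k⟩ ⟨-, hk, h1⟩ ⟨-, hk', h2⟩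
    exact fund_unique D D' k k (hs D hD) (hs D' hD') hk hk (h1.trans h2.symm)

end Pool.Agent.helper3.FT
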