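import Pool.Agent.helper3.FT.Defs

set_option autoImplicit false

namespace Pool.Agent.helper3.FT

open Finset Polynomial

/-- a nonzero polynomial of degree at most three has at most three roots -/
theorem card_roots_cubic_le {F : Type} [Field F] [Fintype F] [DecidableEq F] (a b c d : F)
    (h : ¬ (a = 0 ∧ b = 0 ∧ c = 0 ∧ d = 0)) (s : Finset F)
    (hs : ∀ r ∈ s, a * r ^ 3 + b * r ^ 2 + c * r + d = 0) : s.card ≤ 3 := by
  set p : F[X] := C a * X ^ 3 + C b * X ^ 2 + C c * X + C d with hp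
  have hp0 : p ≠ 0 := by
    intro h0
    apply h
    have h3 : p.coeff 3 = a := by simp [hp]
    have h2 : p.coeff 2 = b := by simp [hp]
    have h1 : p.coeff 1 = c := by simp [hp]
    have h00 : p.coeff 0 = d := by simp [hp]
    rw [h0] at h3 h2 h1 h00
    simp only [coeff_zero] at h3 h2 h1 h00
    exact ⟨h3.symm, h2.symm, h1.symm, h00.symm⟩
  have hdeg : p.natDegree ≤ 3 := natDegree_cubic_le
  have hsub : s ⊆ p.roots.toFinset := by
    intro r hr
    rw [Multiset.mem_toFinset, mem_roots hp0, IsRoot.def]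
    have := hs r hr
    simpa [hp] using this
  calc s.card ≤ p.roots.toFinset.card := card_le_card hsub
    _ ≤ Multiset.card p.roots := Multiset.toFinset_card_le _
    _ ≤ p.natDegree := p.card_roots'
    _ ≤ 3 := hdeg

/-- P3 -/
theorem roots_le (p : ℕ) [Fact p.Prime] (hp5 : p ≠ 5) (A A' B X : ℤ)
    (hv : ¬ ((p : ℤ) ∣ A ∧ (p : ℤ) ∣ A' ∧ (p : ℤ) ∣ B ∧ (p : ℤ) ∣ X)) :
    ((univ : Finset (ZMod p)).filter (fun r =>
      5 * (A : ZMod p) * r ^ 3 - 2 * (A' : ZMod p) * r + (B : ZMod p) = 0 ∧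
      (A' : ZMod p) * r ^ 3 + 2 * (B : ZMod p) * r ^ 2 - 5 * (X : ZMod p) = 0)).card ≤ 3 := by
  have hp : p.Prime := Fact.out
  have h5 : (5 : ZMod p) ≠ 0 := by
    intro h
    have h1 : ((5 : ℕ) : ZMod p) = 0 := by exact_mod_cast h
    rw [ZMod.natCast_eq_zero_iff] at h1
    exact hp5 ((Nat.prime_dvd_prime_iff_eq hp (by norm_num)).1 h1)
  by_cases c1 : (5 * (A : ZMod p) = 0 ∧ (0 : ZMod p) = 0 ∧ -(2 * (A' : ZMod p)) = 0 ∧
      (B : ZMod p) = 0)
  · by_cases c2 : ((A' : ZMod p) = 0 ∧ 2 * (B : ZMod p) = 0 ∧ (0 : ZMod p) = 0 ∧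
      -(5 * (X : ZMod p)) = 0)
    · exfalso
      apply hv
      obtain ⟨a1, -, -, b1⟩ := c1
      obtain ⟨a2, -, -, b2⟩ := c2
      rw [neg_eq_zero] at b2
      have e1 : (A : ZMod p) = 0 := (mul_eq_zero.1 a1).resolve_left h5
      have e2 : (X : ZMod p) = 0 := (mul_eq_zero.1 b2).resolve_left h5
      exact ⟨(ZMod.intCast_zmod_eq_zero_iff_dvd _ _).1 e1,
        (ZMod.intCast_zmod_eq_zero_iff_dvd _ _).1 a2,
        (ZMod.intCast_zmod_eq_zero_iff_dvd _ _).1 b1,
        (ZMod.intCast_zmod_eq_zero_iff_dvd _ _).1 e2⟩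
    · refine card_roots_cubic_le _ _ _ _ c2 _ ?_
      intro r hr
      rw [mem_filter] at hr
      linear_combination hr.2.2
  · refine card_roots_cubic_le _ _ _ _ c1 _ ?_
    intro r hr
    rw [mem_filter] at hr
    linear_combination hr.2.1

end Pool.Agent.helper3.FT
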