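import Pool.Agent.helper3.FT.Defs

set_option autoImplicit false

namespace Pool.Agent.helper3.FT

open Finset

/-- P1 (cofactor identity U F1 + W F2 = -5 Rf k^5, see notes) -/
theorem dvd_Rf (h A A' B X n k : ℤ) (hc : IsCoprime h (5 * k)) (h1 : h ∣ F1 A A' B n k)
    (h2 : h ∣ F2 A' B X n k) : h ∣ Rf A A' B X := by
  have key : (-250*A^2*A'*B*X*n^2 - 625*A^2*A'*X^2*k^2 - 500*A^2*B^2*X*n*k - 50*A*A'^3*X*n*k
      + 30*A*A'^2*B^2*n^2 - 50*A*A'^2*B*X*k^2 + 80*A*A'*B^3*n*k + 40*A*B^4*k^2 - 4*A'^5*n^2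
      - 10*A'^4*B*n*k - 5*A'^3*B^2*k^2) * F1 A A' B n k
      + (1250*A^3*B*X*n^2 + 3125*A^3*X^2*k^2 + 250*A^2*A'^2*X*n*k - 150*A^2*A'*B^2*n^2
      - 750*A^2*A'*B*X*k^2 - 100*A^2*B^3*n*k + 20*A*A'^4*n^2 + 10*A*A'^3*B*n*k
      + 65*A*A'^2*B^2*k^2 - 8*A'^5*k^2) * F2 A' B X n k = (-(k ^ 4)) * (5 * k) * Rf A A' B X := by
    simp only [F1, F2, Rf]
    ring
  have h3 : h ∣ (5 * k) * (k ^ 4 * Rf A A' B X) := by
    have h4 : h ∣ (-(k ^ 4)) * (5 * k) * Rf A A' B X := by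
      rw [← key]
      exact dvd_add (h1.mul_left _) (h2.mul_left _)
    have h5 : (-(k ^ 4)) * (5 * k) * Rf A A' B X = -((5 * k) * (k ^ 4 * Rf A A' B X)) := by ring
    rw [h5] at h4
    exact (dvd_neg).1 h4
  have h4 : h ∣ k ^ 4 * Rf A A' B X := hc.dvd_of_dvd_mul_left h3
  have hk : IsCoprime h (k ^ 4) := (IsCoprime.of_mul_right_right hc).pow_right
  exact hk.dvd_of_dvd_mul_left h4

end Pool.Agent.helper3.FT
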