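import Pool.Agent.helper3.FT.AlgDefs
import Pool.Agent.helper61.FT.A1
import Pool.Agent.helper96.FT.A2

set_option autoImplicit false

/-!
# The elements attached to a pair of ideals (module A5a)
-/

namespace Pool.Agent.helper3.FT

open NumberField Pool.Agent.helper47.RA

variable {K : Type} [Field K] [NumberField K]

/-- division in a Dedekind domain -/
theorem exists_div_aux {R : Type} [CommRing R] [IsDedekindDomain R] (x c : R)
    (hc : c ≠ 0) (J : Ideal R) (h : Ideal.span {x} = Ideal.span {c} * J) :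
    ∃ y : R, x = c * y ∧ Ideal.span {y} = J := by
  have h1 : x ∈ Ideal.span {c} := by
    have h2 : x ∈ Ideal.span {x} := Ideal.mem_span_singleton_self x
    rw [h] at h2
    have h3 : Ideal.span {c} * J ≤ Ideal.span {c} := Ideal.mul_le_left
    exact h3 h2
  obtain ⟨y, rfl⟩ := Ideal.mem_span_singleton.1 h1
  refine ⟨y, rfl, ?_⟩
  rw [← Ideal.span_singleton_mul_span_singleton] at h
  have hc0 : Ideal.span {c} ≠ (0 : Ideal R) := by
    rw [Ne, Ideal.zero_eq_bot, Ideal.span_singleton_eq_bot]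
    exact hc
  exact mul_left_cancel₀ hc0 h

/-- division by an integer -/
theorem exists_div (x : 𝓞 K) (c : ℤ) (hc : c ≠ 0) (J : Ideal (𝓞 K))
    (h : Ideal.span {x} = Ideal.span {(c : 𝓞 K)} * J) :
    ∃ y : 𝓞 K, x = c * y ∧ Ideal.span {y} = J :=
  exists_div_aux x (c : 𝓞 K) (by exact_mod_cast hc) J h

omit [NumberField K] in
/-- integers with the same absolute value span the same ideal -/
theorem span_abs (Z : ℤ) (z : ℕ) (h : (z : ℤ) = |Z|) :
    Ideal.span {((z : ℕ) : 𝓞 K)} = Ideal.span {(Z : 𝓞 K)} := by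
  have h1 : ((z : ℕ) : 𝓞 K) = ((z : ℤ) : 𝓞 K) := by push_cast; rfl
  rw [h1, h]
  rcases abs_choice Z with h2 | h2
  · rw [h2]
  · rw [h2]
    push_cast
    exact Ideal.span_singleton_neg _

/-- a sign for the norm -/
theorem exists_signed (N : ℤ) (m z : ℤ) (hz : 0 ≤ z) (h : |N| = m ^ 2 * z) :
    ∃ Z : ℤ, |Z| = z ∧ N = m ^ 2 * Z := by
  rcases abs_choice N with h1 | h1
  · exact ⟨z, abs_of_nonneg hz, by rw [← h, h1]⟩
  · exact ⟨-z, by rw [abs_neg, abs_of_nonneg hz], by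
      have : N = - (m ^ 2 * z) := by rw [← h, h1]; ring
      rw [this]; ring⟩

/-- A5a -/
theorem exists_full_of (Q : QF K) (a L : Ideal (𝓞 K)) (β γ : 𝓞 K) (hβ : β ≠ 0) (hγ : γ ≠ 0)
    (iβ : Ideal.span {β} = a ^ 2 * L) (iγ : Ideal.span {γ} = Q.bar a * L ^ 2)
    (pa : Prim a) (pL : Prim L) :
    ∃ F : Full Q, F.a = a ∧ F.L = L ∧ F.β = β ∧ F.γ = γ := by
  have hβ0 : Ideal.span {β} ≠ ⊥ := by rwa [Ne, Ideal.span_singleton_eq_bot]
  have ha0 : a ≠ ⊥ := by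
    rintro rfl
    apply hβ0
    rw [iβ]
    simp
  have hL0 : L ≠ ⊥ := by
    rintro rfl
    apply hβ0
    rw [iβ]
    simp
  have hz0 : Ideal.absNorm a ≠ 0 := by rwa [Ne, Ideal.absNorm_eq_zero_iff]
  have hl0 : Ideal.absNorm L ≠ 0 := by rwa [Ne, Ideal.absNorm_eq_zero_iff]
  set z : ℕ := Ideal.absNorm a with hz
  set l : ℕ := Ideal.absNorm L with hl
  obtain ⟨Nβ, hNβ, hNβ'⟩ := Q.exists_norm β
  obtain ⟨Nγ, hNγ, hNγ'⟩ := Q.exists_norm γ
  have e1 : |Nβ| = (z : ℤ) ^ 2 * l := by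
    rw [← hNβ', iβ, map_mul, map_pow]
    push_cast
    rfl
  have e2 : |Nγ| = (l : ℤ) ^ 2 * z := by
    rw [← hNγ', iγ, map_mul, map_pow, Q.absNorm_bar]
    push_cast
    ring
  obtain ⟨Λ, hΛ1, hΛ2⟩ := exists_signed Nβ z l (by positivity) e1
  obtain ⟨Z, hZ1, hZ2⟩ := exists_signed Nγ l z (by positivity) e2
  have hΛ0 : Λ ≠ 0 := by
    rw [Ne, ← abs_eq_zero, hΛ1]
    exact_mod_cast hl0
  have hZ0 : Z ≠ 0 := by
    rw [Ne, ← abs_eq_zero, hZ1]
    exact_mod_cast hz0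
  have hZsq : Z ^ 2 = (z : ℤ) ^ 2 := by rw [← sq_abs, hZ1]
  have hΛsq : Λ ^ 2 = (l : ℤ) ^ 2 := by rw [← sq_abs, hΛ1]
  have sZ : Ideal.span {((z : ℕ) : 𝓞 K)} = Ideal.span {(Z : 𝓞 K)} := span_abs Z z hZ1.symm
  have sΛ : Ideal.span {((l : ℕ) : 𝓞 K)} = Ideal.span {(Λ : 𝓞 K)} := span_abs Λ l hΛ1.symm
  have ma : a * Q.bar a = Ideal.span {(Z : 𝓞 K)} := by rw [Q.mul_bar, ← hz, sZ]
  have mL : L * Q.bar L = Ideal.span {(Λ : 𝓞 K)} := by rw [Q.mul_bar, ← hl, sΛ]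
  have icγ : Ideal.span {Q.cj γ} = a * Q.bar L ^ 2 := by
    rw [← Q.bar_span, iγ, Q.bar_mul, Q.bar_pow, Q.bar_bar]
  -- u
  obtain ⟨u, hu1, hu2⟩ := exists_div (β * Q.cj γ) Λ hΛ0 (a ^ 3 * Q.bar L) (by
    rw [← Ideal.span_singleton_mul_span_singleton, iβ, icγ, ← mL]
    ring)
  obtain ⟨v, hv1, hv2⟩ := exists_div (β * γ) Z hZ0 (a * L ^ 3) (by
    rw [← Ideal.span_singleton_mul_span_singleton, iβ, iγ, ← ma]
    ring)
  obtain ⟨α, hα1, hα2⟩ := exists_div (β ^ 2 * Q.cj γ) (Λ ^ 2) (pow_ne_zero 2 hΛ0) (a ^ 5) (by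
    rw [← Ideal.span_singleton_mul_span_singleton, ← Ideal.span_singleton_pow, iβ, icγ]
    push_cast
    rw [← Ideal.span_singleton_pow, ← mL]
    ring)
  obtain ⟨α', hα'1, hα'2⟩ := exists_div (γ ^ 2 * β) (Z ^ 2) (pow_ne_zero 2 hZ0) (L ^ 5) (by
    rw [← Ideal.span_singleton_mul_span_singleton, ← Ideal.span_singleton_pow, iβ, iγ]
    push_cast
    rw [← Ideal.span_singleton_pow, ← ma]
    ring)
  refine ⟨{ a := a, L := L, β := β, γ := γ, u := u, v := v, α := α, α' := α', Z := Z, Λ := Λ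
            hZ := hZ0, hΛ := hΛ0, e1 := hu1, e2 := hv1
            e3 := by rw [hα1]; push_cast; rfl
            e4 := by rw [hα'1]; push_cast; rfl
            nβ := by rw [hNβ, hΛ2, ← hZsq]; push_cast; rfl
            nγ := by rw [hNγ, hZ2, ← hΛsq]; push_cast; ring
            iβ := iβ, iγ := iγ, iu := hu2, iv := hv2, iα := hα2, iα' := hα'2
            na := hZ1.symm, nL := hΛ1.symm, pa := pa, pL := pL }, rfl, rfl, rfl, rfl⟩

end Pool.Agent.helper3.FT
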